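import Pool.Prelude.Def_F_7072c74d
import Pool.Agent.TH404.AK.Sdc3
import Pool.Agent.W814.BB.Slices

/-!
# Sets containing long progressions of every difference up to `N`

`m N k` (the definition of the frozen statement of `MP_ba96da_co`) is the least cardinality of a
finite set of natural numbers which contains a `k`-term progression of difference `d` for every
`1 ≤ d ≤ N`. The sums-differences exponent `1.669587` of the starting library
(`Pool.Agent.TH404.AK.sdc3`) gives `m N k ≥ N ^ 0.59895` for all large `k` and all `N`.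
-/

set_option autoImplicit false

open Finset

namespace Pool.Agent.Results.MP_ba96da_co.ChainExponent

open Pool.Agent.W904.AK Pool.Agent.W814.BB Nb011b407

/-- A set which contains a `k`-term progression of every difference `1 ≤ d ≤ N`. -/
theorem le_of_cover {c : ℝ} (hc : 0 < c) {ms : Finset ℕ} (hS : SliceBound ms c) {k : ℕ}
    (hk : ∀ r ∈ ms, r < k) (N : ℕ) (A : Finset ℕ) (hA : IsAPCover (A : Set ℕ) N k) :
    (N : ℝ) ≤ (A.card : ℝ) ^ c := by
  classical
  have h1 : ∀ d : ℕ, ∃ a : ℕ, 1 ≤ d ∧ d ≤ N → ∀ r < k, a + r * d ∈ A := by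
    intro d
    by_cases hd : 1 ≤ d ∧ d ≤ N
    · obtain ⟨a, s, hs, hsa⟩ := hA d hd
      refine ⟨a, fun _ r hr => ?_⟩
      have h2 : a + r * d ∈ s := by
        rw [hsa.2]
        exact ⟨r, by exact_mod_cast hr, by simp⟩
      exact_mod_cast hs h2
    · exact ⟨0, fun h => absurd h hd⟩
  choose a ha using h1
  set G : Finset (ℤ × ℤ) := (Finset.Icc 1 N).image fun d : ℕ => ((a d : ℤ), (d : ℤ)) with hG
  have hGs : (G.image Prod.snd).card = N := by
    rw [hG, Finset.image_image, Finset.card_image_of_injective, Nat.card_Icc]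
    · omega
    · intro x y hxy
      have : (x : ℤ) = y := hxy
      exact_mod_cast this
  have hsl : (ms.sup fun r => (G.image fun g => g.1 + (r : ℤ) * g.2).card) ≤ A.card := by
    refine Finset.sup_le fun r hr => ?_
    have hsub : (G.image fun g => g.1 + (r : ℤ) * g.2) ⊆ A.image fun a : ℕ => (a : ℤ) := by
      intro y hy
      obtain ⟨g, hg, rfl⟩ := Finset.mem_image.1 hy
      obtain ⟨d, hd, rfl⟩ := Finset.mem_image.1 hg
      refine Finset.mem_image.2 ⟨_, ha d (Finset.mem_Icc.1 hd) r (hk r hr), ?_⟩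
      push_cast
      ring
    exact (Finset.card_le_card hsub).trans Finset.card_image_le
  have h2 := hS G
  rw [hGs] at h2
  refine h2.trans (Real.rpow_le_rpow (Nat.cast_nonneg _) ?_ hc.le)
  exact_mod_cast hsl

/-- Some finite set contains a `k`-term progression of every difference `1 ≤ d ≤ N`. -/
theorem exists_cover (N k : ℕ) :
    {m | ∃ A : Finset ℕ, A.card = m ∧ IsAPCover (A : Set ℕ) N k}.Nonempty := by
  classical
  refine ⟨_, Finset.range (k * N + 1), rfl, fun d hd => ⟨0, (fun i : ℕ => i * d) '' Set.Iio k,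
    ?_, ?_, ?_⟩⟩
  · rintro _ ⟨i, hi, rfl⟩
    have hi' : i < k := hi
    have : i * d ≤ k * N := Nat.mul_le_mul hi'.le hd.2
    simp only [Finset.coe_range, Set.mem_Iio]
    omega
  · have hinj : Function.Injective fun i : ℕ => i * d := fun i j hij =>
      Nat.eq_of_mul_eq_mul_right hd.1 hij
    rw [← Set.encard, hinj.encard_image, Set.encard_eq_coe_toFinset_card]
    simp
  · ext x
    constructor
    · rintro ⟨i, hi, rfl⟩
      have hi' : i < k := hi
      exact ⟨i, by exact_mod_cast hi', by simp⟩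
    · rintro ⟨i, hi, rfl⟩
      refine ⟨i, ?_, by simp⟩
      have hi' : i < k := by exact_mod_cast hi
      exact hi'

theorem general {c : ℝ} (hc : 0 < c) (h : SDc c) :
    ∃ k₀ : ℕ, ∀ k : ℕ, k₀ ≤ k → ∀ N : ℕ, (N : ℝ) ^ (1 / c) ≤ (m N k : ℝ) := by
  obtain ⟨ms, hne, hpos, hSB⟩ := sliceBound_of_SDc hc.le h
  refine ⟨ms.sup id + 1, fun k hk N => ?_⟩
  obtain ⟨A, hA, hcov⟩ := Nat.sInf_mem (exists_cover N k)
  have h1 : (N : ℝ) ≤ (A.card : ℝ) ^ c := le_of_cover hc hSB (fun r hr => by
    have : r ≤ ms.sup id := Finset.le_sup (f := id) hr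
    omega) N A hcov
  have h2 : (m N k : ℝ) = A.card := by
    rw [hA]
    rfl
  rw [h2]
  refine (Real.rpow_le_rpow (Nat.cast_nonneg _) h1 (by positivity)).trans (le_of_eq ?_)
  rw [← Real.rpow_mul (Nat.cast_nonneg _), mul_one_div_cancel hc.ne', Real.rpow_one]

/-- **Main theorem.** (1) For all large `k` and all `N`, every finite set of natural numbers which
contains a `k`-term progression of difference `d` for every `1 ≤ d ≤ N` has at least `N ^ 0.59895`
elements. (2) More generally, every sums-differences inequality with exponent `c > 1` gives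
`m N k ≥ N ^ (1 / c)` for all large `k` and all `N`. -/
theorem result :
    (∃ k₀ : ℕ, ∀ k : ℕ, k₀ ≤ k → ∀ N : ℕ, (N : ℝ) ^ (59895 / 100000 : ℝ) ≤ (m N k : ℝ)) ∧
    ∀ c : ℝ, 1 < c → SDc c →
      ∃ k₀ : ℕ, ∀ k : ℕ, k₀ ≤ k → ∀ N : ℕ, (N : ℝ) ^ (1 / c) ≤ (m N k : ℝ) := by
  refine ⟨?_, fun c hc h => general (by linarith) h⟩
  obtain ⟨k₀, hk₀⟩ := general (by norm_num) Pool.Agent.TH404.AK.sdc3
  refine ⟨k₀, fun k hk N => ?_⟩
  rcases Nat.eq_zero_or_pos N with h0 | h0
  · rw [h0, Nat.cast_zero, Real.zero_rpow (by norm_num)]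
    exact Nat.cast_nonneg _
  · refine le_trans ?_ (hk₀ k hk N)
    exact Real.rpow_le_rpow_of_exponent_le (by exact_mod_cast h0) (by norm_num)

end Pool.Agent.Results.MP_ba96da_co.ChainExponent
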